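import Pool.Agent.H500.HC.Stm
import Pool.Agent.H511.Cm.Hk

set_option autoImplicit false
set_option linter.unusedSectionVars false

/-!
# Project HC (helper500), part D2: purity and L-functions of algebraic Hecke characters (helper337)
-/

namespace Pool.Agent.H337.HC.HeckeL

open NumberField NumberField.Units NumberField.InfinitePlace Complex IsDedekindDomain
open NumberField.Units.dirichletUnitTheorem (logSpace w₀ logEmbedding_component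
  sum_logEmbedding_component unitLattice_span_eq_top)
open Pool.Agent.H500.HC (TotPos InRay S_Cls S_HeckeL)
open Pool.Agent.Y773 (LI)
open Pool.Agent.N172.HS (arch IsHecke)
open Pool.Agent.H511.Cm (NT entire_nt cont_triv norm_le)
open Pool.Agent.Y773.AB (res res_apply res_cop res_not norm_res_le hasProd_prime Ef Ef_diff Ef_ne
  LI_res)

section
variable {K : Type} [Field K] [NumberField K]

/-- a power of a unit is `≡ 1` modulo `N` -/
lemma unit_pow (N : ℕ) (hN : 0 < N) (u : (𝓞 K)ˣ) :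
    ∃ k : ℕ, 0 < k ∧ (N : 𝓞 K) ∣ ((u : 𝓞 K)) ^ k - 1 := by
  have hne : Ideal.span {(N : 𝓞 K)} ≠ ⊥ := by
    rw [Ne, Ideal.span_singleton_eq_bot]
    exact_mod_cast hN.ne'
  have hfin : Finite (𝓞 K ⧸ Ideal.span {(N : 𝓞 K)}) := Ideal.finiteQuotientOfFreeOfNeBot _ hne
  set f : (𝓞 K)ˣ →* (𝓞 K ⧸ Ideal.span {(N : 𝓞 K)})ˣ :=
    Units.map (Ideal.Quotient.mk (Ideal.span {(N : 𝓞 K)})).toMonoidHom with hf
  obtain ⟨k, hk, hk1⟩ := (isOfFinOrder_iff_pow_eq_one).1 (isOfFinOrder_of_finite (f u))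
  refine ⟨k, hk, ?_⟩
  rw [← Ideal.mem_span_singleton, ← Ideal.Quotient.eq_zero_iff_mem, map_sub, map_pow, map_one,
    sub_eq_zero]
  have h1 := congrArg Units.val hk1
  rw [Units.val_pow_eq_pow_val, Units.val_one] at h1
  exact h1

lemma unit_ne (u : (𝓞 K)ˣ) (φ : K →+* ℂ) : φ ((u : 𝓞 K) : K) ≠ 0 := by
  rw [Ne, map_eq_zero]
  exact_mod_cast u.ne_zero

/-- purity: if `∏ ‖φ u‖ ^ t φ = 1` for the units in a ray then `t φ + t φbar` is constant -/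
lemma purity (t : (K →+* ℂ) → ℤ)
    (h : ∀ u : (𝓞 K)ˣ, ∑ φ : K →+* ℂ, (t φ : ℝ) * Real.log ‖φ ((u : 𝓞 K) : K)‖ = 0) :
    ∃ w : ℤ, ∀ φ : K →+* ℂ, t φ + t (ComplexEmbedding.conjugate φ) = w := by
  classical
  set S : InfinitePlace K → ℤ := fun w =>
    t w.embedding + t (ComplexEmbedding.conjugate w.embedding) with hS
  have hSφ : ∀ φ : K →+* ℂ, S (InfinitePlace.mk φ) = t φ + t (ComplexEmbedding.conjugate φ) := by
    intro φ
    simp only [hS]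
    rcases embedding_mk_eq φ with h1 | h1
    · rw [h1]
    · rw [h1]
      have h2 : ComplexEmbedding.conjugate (ComplexEmbedding.conjugate φ) = φ :=
        ComplexEmbedding.involutive_conjugate K φ
      rw [h2, add_comm]
  have hconj : ∀ u : (𝓞 K)ˣ, ∑ φ : K →+* ℂ, (t (ComplexEmbedding.conjugate φ) : ℝ) *
      Real.log ‖φ ((u : 𝓞 K) : K)‖ = 0 := by
    intro u
    rw [← h u]
    refine Fintype.sum_equiv (Function.Involutive.toPerm _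
      (ComplexEmbedding.involutive_conjugate K)) _ _ fun φ => ?_
    have h1 : ‖ComplexEmbedding.conjugate φ ((u : 𝓞 K) : K)‖ = ‖φ ((u : 𝓞 K) : K)‖ := by
      rw [ComplexEmbedding.conjugate_coe_eq, Complex.norm_conj]
    show _ = (t (ComplexEmbedding.conjugate φ) : ℝ) *
      Real.log ‖ComplexEmbedding.conjugate φ ((u : 𝓞 K) : K)‖
    rw [h1]
  have hsum : ∀ u : (𝓞 K)ˣ, ∑ w : InfinitePlace K, (S w : ℝ) * (mult w * Real.log (w ((u : 𝓞 K) : K))) = 0 := by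
    intro u
    have h1 : ∑ φ : K →+* ℂ, (S (InfinitePlace.mk φ) : ℝ) * Real.log (InfinitePlace.mk φ ((u : 𝓞 K) : K)) = 0 := by
      have h2 : ∀ φ : K →+* ℂ, (S (InfinitePlace.mk φ) : ℝ) * Real.log (InfinitePlace.mk φ ((u : 𝓞 K) : K)) =
          (t φ : ℝ) * Real.log ‖φ ((u : 𝓞 K) : K)‖ +
          (t (ComplexEmbedding.conjugate φ) : ℝ) * Real.log ‖φ ((u : 𝓞 K) : K)‖ := by
        intro φ
        rw [hSφ, InfinitePlace.apply]
        push_cast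
        ring
      rw [Finset.sum_congr rfl fun φ _ => h2 φ, Finset.sum_add_distrib, h u, hconj u, add_zero]
    rw [← Finset.sum_fiberwise (Finset.univ : Finset (K →+* ℂ)) (fun φ => InfinitePlace.mk φ)] at h1
    rw [← h1]
    refine Finset.sum_congr rfl fun w _ => ?_
    have h3 : ∀ φ ∈ Finset.univ.filter (fun φ : K →+* ℂ => InfinitePlace.mk φ = w),
        (S (InfinitePlace.mk φ) : ℝ) * Real.log (InfinitePlace.mk φ ((u : 𝓞 K) : K)) =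
        (S w : ℝ) * Real.log (w ((u : 𝓞 K) : K)) := by
      intro φ hφ
      rw [(Finset.mem_filter.1 hφ).2]
    rw [Finset.sum_congr rfl h3, Finset.sum_const, card_filter_mk_eq, nsmul_eq_mul]
    ring
  -- the functional
  set L : (logSpace K) →ₗ[ℝ] ℝ := ∑ w : {w : InfinitePlace K // w ≠ w₀},
    ((S w : ℝ) - S w₀) • (LinearMap.proj w : (logSpace K) →ₗ[ℝ] ℝ) with hL
  have hLap : ∀ x : logSpace K, L x = ∑ w : {w : InfinitePlace K // w ≠ w₀},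
      ((S w : ℝ) - S w₀) * x w := by
    intro x
    rw [hL, LinearMap.sum_apply]
    rfl
  have hL0 : ∀ u : (𝓞 K)ˣ, L (logEmbedding K (Additive.ofMul u)) = 0 := by
    intro u
    rw [hLap]
    have h1 : ∑ w : {w : InfinitePlace K // w ≠ w₀}, ((S w : ℝ) - S w₀) *
        logEmbedding K (Additive.ofMul u) w =
        ∑ w : {w : InfinitePlace K // w ≠ w₀}, (S w : ℝ) *
          (mult w.val * Real.log (w.val ((u : 𝓞 K) : K))) -
        (S w₀ : ℝ) * ∑ w : {w : InfinitePlace K // w ≠ w₀},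
          logEmbedding K (Additive.ofMul u) w := by
      rw [Finset.mul_sum, ← Finset.sum_sub_distrib]
      refine Finset.sum_congr rfl fun w _ => ?_
      rw [logEmbedding_component]
      ring
    rw [h1, sum_logEmbedding_component]
    have h2 := hsum u
    rw [Fintype.sum_eq_add_sum_subtype_ne _ w₀] at h2
    linarith
  have hker : ∀ x : logSpace K, L x = 0 := by
    have h1 : Submodule.span ℝ (unitLattice K : Set (logSpace K)) ≤ LinearMap.ker L := by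
      rw [Submodule.span_le]
      intro x hx
      obtain ⟨u, -, rfl⟩ := hx
      exact hL0 u.toMul
    rw [unitLattice_span_eq_top] at h1
    intro x
    exact LinearMap.mem_ker.1 (h1 Submodule.mem_top)
  have hconst : ∀ w : InfinitePlace K, S w = S w₀ := by
    intro w
    by_cases hw : w = w₀
    · rw [hw]
    · have h1 := hLap (Pi.single ⟨w, hw⟩ 1)
      rw [hker, Finset.sum_eq_single (⟨w, hw⟩ : {w : InfinitePlace K // w ≠ w₀})] at h1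
      · rw [Pi.single_eq_same, mul_one] at h1
        have h2 : (S w : ℝ) = S w₀ := by linarith
        exact_mod_cast h2
      · intro i _ hi
        rw [Pi.single_eq_of_ne hi, mul_zero]
      · intro hi
        exact absurd (Finset.mem_univ _) hi
  exact ⟨S w₀, fun φ => by rw [← hSφ, hconst]⟩


/-- the relation of the units -/
lemma units_zero (N : ℕ) (hN : 0 < N) (t : (K →+* ℂ) → ℤ) (ψ : Ideal (𝓞 K) →*₀ ℂ)
    (hray : ∀ x : 𝓞 K, InRay N x → ψ (Ideal.span {x}) = ∏ φ : K →+* ℂ, φ (x : K) ^ t φ)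
    (u : (𝓞 K)ˣ) : ∑ φ : K →+* ℂ, (t φ : ℝ) * Real.log ‖φ ((u : 𝓞 K) : K)‖ = 0 := by
  obtain ⟨k, hk, hdvd⟩ := unit_pow N hN u
  have hval : ((u ^ (2 * k) : (𝓞 K)ˣ) : 𝓞 K) = (u : 𝓞 K) ^ (2 * k) := Units.val_pow_eq_pow_val _ _
  have hvK : (((u ^ (2 * k) : (𝓞 K)ˣ) : 𝓞 K) : K) = ((u : 𝓞 K) : K) ^ (2 * k) := by
    rw [hval]
    exact map_pow (algebraMap (𝓞 K) K) _ _
  have hvray : InRay N ((u ^ (2 * k) : (𝓞 K)ˣ) : 𝓞 K) := by
    refine ⟨(u ^ (2 * k)).ne_zero, ?_, ?_⟩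
    · have h1 : ((u ^ (2 * k) : (𝓞 K)ˣ) : 𝓞 K) - 1 = ((u : 𝓞 K) ^ k - 1) * ((u : 𝓞 K) ^ k + 1) := by
        rw [hval]
        ring
      rw [h1]
      exact Dvd.dvd.mul_right hdvd _
    · intro τ
      rw [hvK, map_pow, pow_mul]
      have h1 : τ ((u : 𝓞 K) : K) ≠ 0 := by
        rw [Ne, map_eq_zero]
        exact_mod_cast u.ne_zero
      positivity
  have h1 := hray _ hvray
  rw [Ideal.span_singleton_eq_top.2 (u ^ (2 * k)).isUnit, ← Ideal.one_eq_top, map_one] at h1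
  have h2 : Real.log ‖∏ φ : K →+* ℂ, φ (((u ^ (2 * k) : (𝓞 K)ˣ) : 𝓞 K) : K) ^ t φ‖ = 0 := by
    rw [← h1, norm_one, Real.log_one]
  rw [norm_prod, Real.log_prod (fun φ _ => norm_ne_zero_iff.2 (zpow_ne_zero _ (unit_ne _ φ)))] at h2
  have h3 : ∀ φ : K →+* ℂ, Real.log ‖φ (((u ^ (2 * k) : (𝓞 K)ˣ) : 𝓞 K) : K) ^ t φ‖ =
      (2 * k : ℕ) * ((t φ : ℝ) * Real.log ‖φ ((u : 𝓞 K) : K)‖) := by
    intro φ
    rw [hvK, map_pow, norm_zpow, norm_pow, Real.log_zpow, Real.log_pow]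
    ring
  rw [Finset.sum_congr rfl fun φ _ => h3 φ, ← Finset.mul_sum] at h2
  rcases mul_eq_zero.1 h2 with h4 | h4
  · exfalso
    have h5 : 2 * k = 0 := by exact_mod_cast h4
    omega
  · exact h4

lemma prod_norm (x : 𝓞 K) :
    ∏ φ : K →+* ℂ, ‖φ (x : K)‖ = ((Ideal.absNorm (Ideal.span {x}) : ℕ) : ℝ) := by
  classical
  have h2 : ∏ φ : K →+* ℂ, ‖φ (x : K)‖ = ∏ w : InfinitePlace K, w (x : K) ^ mult w := by
    rw [← Finset.prod_fiberwise (Finset.univ : Finset (K →+* ℂ)) (fun φ => InfinitePlace.mk φ)]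
    refine Finset.prod_congr rfl fun w _ => ?_
    have h3 : ∀ φ ∈ Finset.univ.filter (fun φ : K →+* ℂ => InfinitePlace.mk φ = w),
        ‖φ (x : K)‖ = w (x : K) := by
      intro φ hφ
      rw [← (Finset.mem_filter.1 hφ).2, InfinitePlace.apply]
    rw [Finset.prod_congr rfl h3, Finset.prod_const, card_filter_mk_eq]
  rw [h2, prod_eq_abs_norm, Ideal.absNorm_span_singleton, ← Algebra.coe_norm_int]
  push_cast
  rw [Nat.cast_natAbs]
  push_cast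
  rfl

lemma emb_ne {x : 𝓞 K} (hx : x ≠ 0) (φ : K →+* ℂ) : φ (x : K) ≠ 0 := by
  rw [Ne, map_eq_zero]
  exact_mod_cast hx

lemma norm_sq (t : (K →+* ℂ) → ℤ) (w : ℤ)
    (hw : ∀ φ : K →+* ℂ, t φ + t (ComplexEmbedding.conjugate φ) = w) {x : 𝓞 K} (hx : x ≠ 0) :
    (∏ φ : K →+* ℂ, ‖φ (x : K)‖ ^ t φ) ^ 2 = ((Ideal.absNorm (Ideal.span {x}) : ℕ) : ℝ) ^ w := by
  have h1 : ∏ φ : K →+* ℂ, ‖φ (x : K)‖ ^ t (ComplexEmbedding.conjugate φ) =
      ∏ φ : K →+* ℂ, ‖φ (x : K)‖ ^ t φ := by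
    refine Fintype.prod_equiv (Function.Involutive.toPerm _
      (ComplexEmbedding.involutive_conjugate K)) _ _ fun φ => ?_
    show _ = ‖ComplexEmbedding.conjugate φ (x : K)‖ ^ t (ComplexEmbedding.conjugate φ)
    rw [ComplexEmbedding.conjugate_coe_eq, Complex.norm_conj]
  rw [sq]
  nth_rewrite 2 [← h1]
  rw [← Finset.prod_mul_distrib, ← prod_norm, ← Finset.prod_zpow]
  refine Finset.prod_congr rfl fun φ _ => ?_
  rw [← zpow_add₀ (norm_ne_zero_iff.2 (emb_ne hx φ)), hw]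

/-- the normalized character -/
noncomputable def eta (ψ : Ideal (𝓞 K) →*₀ ℂ) (c : ℂ) : Ideal (𝓞 K) →*₀ ℂ where
  toFun 𝔞 := ψ 𝔞 * ((Ideal.absNorm 𝔞 : ℕ) : ℂ) ^ (-c)
  map_zero' := by rw [map_zero, zero_mul]
  map_one' := by rw [map_one, map_one, Nat.cast_one, Complex.one_cpow, one_mul]
  map_mul' 𝔞 𝔟 := by
    rw [map_mul, map_mul, Nat.cast_mul, Complex.natCast_mul_natCast_cpow]
    ring

lemma eta_apply (ψ : Ideal (𝓞 K) →*₀ ℂ) (c : ℂ) (𝔞 : Ideal (𝓞 K)) :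
    eta ψ c 𝔞 = ψ 𝔞 * ((Ideal.absNorm 𝔞 : ℕ) : ℂ) ^ (-c) := rfl

lemma absNorm_pos {𝔞 : Ideal (𝓞 K)} (h : 𝔞 ≠ ⊥) : 0 < Ideal.absNorm 𝔞 :=
  Nat.pos_of_ne_zero fun h0 => h (Ideal.absNorm_eq_zero_iff.1 h0)

lemma cpow_eq (n : ℕ) (w : ℤ) : ((n : ℕ) : ℂ) ^ (-(((w : ℝ) / 2 : ℝ) : ℂ)) =
    (((n : ℝ) ^ (-((w : ℝ) / 2)) : ℝ) : ℂ) := by
  rw [Complex.ofReal_cpow (Nat.cast_nonneg n)]
  push_cast
  rfl

lemma rpow_sq (n : ℕ) (hn : 0 < n) (w : ℤ) :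
    ((n : ℝ) ^ (-((w : ℝ) / 2))) ^ 2 * (n : ℝ) ^ w = 1 := by
  have hn' : (0 : ℝ) < n := by exact_mod_cast hn
  rw [← Real.rpow_natCast, ← Real.rpow_mul hn'.le, ← Real.rpow_intCast, ← Real.rpow_add hn']
  have h1 : -((w : ℝ) / 2) * ((2 : ℕ) : ℝ) + (w : ℝ) = 0 := by
    push_cast
    ring
  rw [h1, Real.rpow_zero]

lemma mul_one_of {a b y : ℝ} (ha : 0 < a) (hb : 0 < b) (h1 : a ^ 2 = y) (h2 : b ^ 2 * y = 1) :
    a * b = 1 := by
  have h3 : (a * b) ^ 2 = 1 := by rw [mul_pow, h1, mul_comm]; exact h2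
  have h4 : 0 < a * b := mul_pos ha hb
  nlinarith

/-- the normalized character is unitary -/
lemma isHecke (N : ℕ) (hN : 0 < N) (hCls : S_Cls) (t : (K →+* ℂ) → ℤ) (ψ : Ideal (𝓞 K) →*₀ ℂ)
    (hsupp : ∀ 𝔞 : Ideal (𝓞 K), 𝔞 ≠ ⊥ → (ψ 𝔞 ≠ 0 ↔ IsCoprime 𝔞 (Ideal.span {(N : 𝓞 K)})))
    (hray : ∀ x : 𝓞 K, InRay N x → ψ (Ideal.span {x}) = ∏ φ : K →+* ℂ, φ (x : K) ^ t φ)
    (w : ℤ) (hw : ∀ φ : K →+* ℂ, t φ + t (ComplexEmbedding.conjugate φ) = w) :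
    IsHecke (Ideal.span {(N : 𝓞 K)}) t 0 (eta ψ (((w : ℝ) / 2 : ℝ) : ℂ)) := by
  have hne : Ideal.span {(N : 𝓞 K)} ≠ ⊥ := by
    rw [Ne, Ideal.span_singleton_eq_bot]
    exact_mod_cast hN.ne'
  have hspan : ∀ x : 𝓞 K, x ≠ 0 → Ideal.span {x} ≠ ⊥ := by
    intro x hx h
    exact hx (Ideal.span_singleton_eq_bot.1 h)
  have hcne : ∀ 𝔞 : Ideal (𝓞 K), 𝔞 ≠ ⊥ →
      ((Ideal.absNorm 𝔞 : ℕ) : ℂ) ^ (-(((w : ℝ) / 2 : ℝ) : ℂ)) ≠ 0 := by
    intro 𝔞 h𝔞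
    rw [cpow_eq]
    have h1 : (0 : ℝ) < ((Ideal.absNorm 𝔞 : ℕ) : ℝ) := by exact_mod_cast absNorm_pos h𝔞
    have h2 := Real.rpow_pos_of_pos h1 (-((w : ℝ) / 2))
    exact_mod_cast h2.ne'
  obtain ⟨h, R, hh, -, hR⟩ := hCls K N hN
  have hnsq : ∀ x : 𝓞 K, InRay N x → ‖ψ (Ideal.span {x})‖ ^ 2 =
      ((Ideal.absNorm (Ideal.span {x}) : ℕ) : ℝ) ^ w := by
    intro x hx
    rw [hray x hx, norm_prod, ← norm_sq t w hw hx.1]
    congr 1
    refine Finset.prod_congr rfl fun φ _ => ?_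
    rw [norm_zpow]
  have hnsq' : ∀ 𝔞 : Ideal (𝓞 K), 𝔞 ≠ ⊥ → IsCoprime 𝔞 (Ideal.span {(N : 𝓞 K)}) →
      ‖ψ 𝔞‖ ^ 2 = ((Ideal.absNorm 𝔞 : ℕ) : ℝ) ^ w := by
    intro 𝔞 h𝔞 hc
    obtain ⟨⟨x, hx, hxa⟩, -⟩ := hR 𝔞 h𝔞 hc
    have h1 := hnsq x hx
    rw [← hxa, map_pow, map_pow, norm_pow, Nat.cast_pow] at h1
    have h2 : (‖ψ 𝔞‖ ^ 2) ^ h = (((Ideal.absNorm 𝔞 : ℕ) : ℝ) ^ w) ^ h := by
      rw [← pow_mul, mul_comm 2 h, pow_mul, h1, ← zpow_natCast, ← zpow_natCast, ← zpow_mul,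
        ← zpow_mul, mul_comm]
    have hp : (0 : ℝ) < ((Ideal.absNorm 𝔞 : ℕ) : ℝ) := by exact_mod_cast absNorm_pos h𝔞
    exact (pow_left_inj₀ (by positivity) (by positivity) hh.ne').1 h2
  refine ⟨hne, ?_, ?_, ?_⟩
  · intro 𝔞 h𝔞
    rw [← hsupp 𝔞 h𝔞, eta_apply]
    constructor
    · intro h1
      exact left_ne_zero_of_mul h1
    · intro h1
      exact mul_ne_zero h1 (hcne 𝔞 h𝔞)
  · intro 𝔞 h0
    have h𝔞 : 𝔞 ≠ ⊥ := by
      rintro rfl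
      apply h0
      rw [← Ideal.zero_eq_bot, map_zero]
    have h1 : ψ 𝔞 ≠ 0 := by
      rw [eta_apply] at h0
      exact left_ne_zero_of_mul h0
    rw [eta_apply, norm_mul, cpow_eq, Complex.norm_real, Real.norm_of_nonneg (by positivity)]
    have hp : (0 : ℝ) < ((Ideal.absNorm 𝔞 : ℕ) : ℝ) := by exact_mod_cast absNorm_pos h𝔞
    exact mul_one_of (norm_pos_iff.2 h1) (Real.rpow_pos_of_pos hp _)
      (hnsq' 𝔞 h𝔞 ((hsupp 𝔞 h𝔞).1 h1)) (rpow_sq _ (absNorm_pos h𝔞) w)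
  · intro x hx hx1 hpos
    have hxr : InRay N x := ⟨hx, Ideal.mem_span_singleton.1 hx1, fun τ => hpos τ⟩
    rw [eta_apply, hray x hxr, cpow_eq]
    unfold arch
    have h1 : ∀ φ : K →+* ℂ, ((φ (x : K) / (‖φ (x : K)‖ : ℂ)) ^ t φ *
        exp (((0 : (K →+* ℂ) → ℝ) φ * Real.log ‖φ (x : K)‖ : ℝ) * I)) =
        φ (x : K) ^ t φ * ((‖φ (x : K)‖ ^ t φ : ℝ) : ℂ)⁻¹ := by
      intro φ
      rw [Pi.zero_apply, zero_mul, Complex.ofReal_zero, zero_mul, Complex.exp_zero, mul_one,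
        div_zpow, div_eq_mul_inv, Complex.ofReal_zpow]
    rw [Finset.prod_congr rfl fun φ _ => h1 φ, Finset.prod_mul_distrib]
    congr 1
    have hpn : ∀ φ : K →+* ℂ, 0 < ‖φ (x : K)‖ := fun φ => norm_pos_iff.2 (emb_ne hx φ)
    have hP : 0 < ∏ φ : K →+* ℂ, ‖φ (x : K)‖ ^ t φ :=
      Finset.prod_pos fun φ _ => zpow_pos (hpn φ) _
    have hp : (0 : ℝ) < ((Ideal.absNorm (Ideal.span {x}) : ℕ) : ℝ) := by
      exact_mod_cast absNorm_pos (hspan x hx)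
    have h2 := mul_one_of hP (Real.rpow_pos_of_pos hp (-((w : ℝ) / 2))) (norm_sq t w hw hx)
      (rpow_sq _ (absNorm_pos (hspan x hx)) w)
    rw [Finset.prod_inv_distrib, ← Complex.ofReal_prod, ← Complex.ofReal_inv]
    congr 1
    exact (eq_inv_of_mul_eq_one_right h2)

lemma span_two_ne_top (N : ℕ) : Ideal.span {((2 * N : ℕ) : 𝓞 K)} ≠ ⊤ := by
  intro h
  have h1 : Ideal.absNorm (Ideal.span {((2 * N : ℕ) : 𝓞 K)}) = 1 := by
    rw [h]
    exact Ideal.absNorm_top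
  rw [Ideal.absNorm_span_natCast] at h1
  have h2 : 0 < Module.finrank ℤ (𝓞 K) := by
    rw [RingOfIntegers.rank]
    exact Module.finrank_pos
  rcases pow_eq_one_iff.1 h1 with h3 | h3 <;> omega

lemma sub_vert {K : Type} [Field K] [NumberField K] (N : ℕ) (hN : 0 < N) (t : (K →+* ℂ) → ℤ)
    (η : Ideal (𝓞 K) →*₀ ℂ) (h : IsHecke (Ideal.span {(N : 𝓞 K)}) t 0 η) :
    IsHecke (Ideal.span {((2 * N : ℕ) : 𝓞 K)}) t 0
      (res (Ideal.span {((2 * N : ℕ) : 𝓞 K)}) (span_two_ne_top N) η) := by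
  have hle : Ideal.span {((2 * N : ℕ) : 𝓞 K)} ≤ Ideal.span {(N : 𝓞 K)} := by
    rw [Ideal.span_singleton_le_span_singleton]
    push_cast
    exact dvd_mul_left _ _
  have hcop : ∀ 𝔞 : Ideal (𝓞 K), IsCoprime 𝔞 (Ideal.span {((2 * N : ℕ) : 𝓞 K)}) →
      IsCoprime 𝔞 (Ideal.span {(N : 𝓞 K)}) := by
    intro 𝔞 h1
    rw [Ideal.isCoprime_iff_sup_eq] at h1 ⊢
    rw [eq_top_iff, ← h1]
    exact sup_le_sup_left hle _
  refine ⟨?_, ?_, ?_, ?_⟩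
  · rw [Ne, Ideal.span_singleton_eq_bot]
    have : 2 * N ≠ 0 := by omega
    exact_mod_cast this
  · intro 𝔞 h𝔞
    constructor
    · intro h1
      by_contra h2
      exact h1 (res_not _ _ h2)
    · intro h1
      rw [res_cop _ _ h1]
      exact (h.supp 𝔞 h𝔞).2 (hcop 𝔞 h1)
  · intro 𝔞 h0
    by_cases h1 : IsCoprime 𝔞 (Ideal.span {((2 * N : ℕ) : 𝓞 K)})
    · rw [res_cop _ _ h1] at h0 ⊢
      exact h.unit 𝔞 h0
    · exact absurd (res_not _ _ h1) h0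
  · intro x hx hx1 hpos
    have h1 : IsCoprime (Ideal.span {x}) (Ideal.span {((2 * N : ℕ) : 𝓞 K)}) := by
      rw [Ideal.isCoprime_iff_sup_eq, Ideal.eq_top_iff_one]
      have h2 : (1 : 𝓞 K) = x + -(x - 1) := by ring
      rw [h2]
      exact Submodule.add_mem_sup (Ideal.mem_span_singleton_self x)
        ((Ideal.span {((2 * N : ℕ) : 𝓞 K)}).neg_mem hx1)
    rw [res_cop _ _ h1]
    exact h.ray x hx (hle hx1) hpos

/-- primes as elements of the height one spectrum -/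
noncomputable def eqv (K : Type) [Field K] [NumberField K] :
    HeightOneSpectrum (𝓞 K) ≃ {𝔭 : Ideal (𝓞 K) // Prime 𝔭} where
  toFun v := ⟨v.asIdeal, v.prime⟩
  invFun 𝔭 := ⟨𝔭.1, Ideal.isPrime_of_prime 𝔭.2, 𝔭.2.ne_zero⟩
  left_inv _ := rfl
  right_inv _ := rfl

end

theorem main : S_Cls → S_HeckeL := by
  intro hCls K _ _ N t ψ hN hsupp hray
  obtain ⟨w, hw⟩ := purity t (units_zero N hN t ψ hray)
  set c : ℂ := (((w : ℝ) / 2 : ℝ) : ℂ) with hc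
  set η := eta ψ c with hη
  have hH : IsHecke (Ideal.span {(N : 𝓞 K)}) t 0 η := isHecke N hN hCls t ψ hsupp hray w hw
  have hH2 := sub_vert N hN t η hH
  set 𝔪 : Ideal (𝓞 K) := Ideal.span {((2 * N : ℕ) : 𝓞 K)} with h𝔪
  have htop : 𝔪 ≠ ⊤ := span_two_ne_top N
  have hbot : 𝔪 ≠ ⊥ := hH2.ne_bot
  have hη1 : ∀ 𝔞, ‖η 𝔞‖ ≤ 1 := fun 𝔞 => norm_le hH 𝔞
  obtain ⟨f, hf, hfL⟩ : ∃ f : ℂ → ℂ, MeromorphicOn f Set.univ ∧
      ∀ s : ℂ, 1 < s.re → f s = LI (res 𝔪 htop η) s := by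
    by_cases hk : NT t
    · obtain ⟨F, hF, hFL⟩ := entire_nt hH2 htop hk
      refine ⟨F, fun z _ => ?_, hFL⟩
      exact (hF.analyticAt z).meromorphicAt
    · obtain ⟨f, hf, hfL, -⟩ := cont_triv hH2 htop hk
      exact ⟨f, hf, hfL⟩
  refine ⟨fun s => f (s - c) / Ef 𝔪 η (s - c), 1 + (w : ℝ) / 2, ?_, ?_⟩
  · intro z _
    have h1 : MeromorphicAt (fun s => f s / Ef 𝔪 η s) (z - c) :=
      (hf (z - c) (Set.mem_univ _)).div (((Ef_diff hbot η).analyticAt _).meromorphicAt)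
    have h2 : AnalyticAt ℂ (fun s : ℂ => s - c) z := by fun_prop
    exact MeromorphicAt.comp_analyticAt (f := fun s => f s / Ef 𝔪 η s) h1 h2
  · intro s hs
    have hs' : 1 < (s - c).re := by
      rw [Complex.sub_re, hc, Complex.ofReal_re]
      linarith
    have h1 := hasProd_prime hη1 hs'
    have h2 : f (s - c) / Ef 𝔪 η (s - c) = LI η (s - c) := by
      rw [hfL _ hs', LI_res hbot htop hη1 hs', mul_div_assoc,
        div_self (Ef_ne hbot hη1 (by linarith)), mul_one]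
    show HasProd _ (f (s - c) / Ef 𝔪 η (s - c))
    rw [h2]
    have h3 := (Equiv.hasProd_iff (eqv K)).2 h1
    refine h3.congr_fun fun v => ?_
    have hv : ((Ideal.absNorm v.asIdeal : ℕ) : ℂ) ≠ 0 := by
      have := absNorm_pos v.ne_bot
      exact_mod_cast this.ne'
    show (1 - ψ v.asIdeal * ((Ideal.absNorm v.asIdeal : ℕ) : ℂ) ^ (-s))⁻¹ =
      (1 - η v.asIdeal * ((Ideal.absNorm v.asIdeal : ℕ) : ℂ) ^ (-(s - c)))⁻¹
    rw [hη, eta_apply, mul_assoc, ← Complex.cpow_add _ _ hv]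
    have h4 : -c + -(s - c) = -s := by ring
    rw [h4]

end Pool.Agent.H337.HC.HeckeL
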